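import Pool.Agent.Q64.TC.Main

/-!
# The basin of the two-cycle of `x (n+1) = (α + x (n-1)) / (A + B * x n + x (n-1))`

Let `α > 0`, `B > 1`, `0 ≤ A < 1` and `4 * α < (B - 1) * (1 - A) ^ 2`. There is a continuous
strictly increasing function `g` on `[0, ∞)` through the equilibrium, the only nondecreasing
function from `[0, ∞)` to `[0, ∞)` with `g (g a) * (A + B * g a + a) = α + a`, such that the
solution with initial values `(a, b)` converges to the equilibrium if and only if `b = g a`, to the
two-cycle with the terms of even index tending to the larger number if and only if `b > g a`, and to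
the two-cycle with the terms of even index tending to the smaller number if and only if `b < g a`.

A solution converges to the two-cycle if and only if it is not monotone, and if and only if there
are two consecutive terms on different sides of the equilibrium.

A sequence `x : ℕ → ℝ` contains the terms from the index `-1` on: `x n` is the term with index
`n - 1`, and `(x 0, x 1)` is the pair of initial values.
-/

set_option autoImplicit false

open Filter Topology Set Pool.Agent.Q64.TC

namespace Pool.Agent.Results.MP_a0c75d_an.BasinCurve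

theorem result (α A B : ℝ) (h : Par α A B) :
    ∃ g : ℝ → ℝ,
      -- the curve
      ContinuousOn g (Ici 0) ∧ StrictMonoOn g (Ici 0) ∧ (∀ a, 0 ≤ a → 0 < g a) ∧
      g (eqp α A B) = eqp α A B ∧
      -- the functional equation and its uniqueness
      (∀ a, 0 ≤ a → g (g a) * (A + B * g a + a) = α + a) ∧
      (∀ f : ℝ → ℝ, MonotoneOn f (Ici 0) → (∀ a, 0 ≤ a → 0 ≤ f a) →
        (∀ a, 0 ≤ a → f (f a) * (A + B * f a + a) = α + a) → ∀ a, 0 ≤ a → f a = g a) ∧
      -- explicit bounds
      (∀ a, 0 ≤ a → a < eqp α A B → max a (lin α A B a) < g a ∧ g a < eqp α A B) ∧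
      (∀ a, eqp α A B < a → eqp α A B < g a ∧ g a < min a (lin α A B a)) ∧
      -- the limits of the solutions
      ∀ x : ℕ → ℝ, IsSol α A B x →
        (Tendsto x atTop (𝓝 (eqp α A B)) ↔ x 1 = g (x 0)) ∧
        (LoHi α A B x ↔ g (x 0) < x 1) ∧
        (HiLo α A B x ↔ x 1 < g (x 0)) ∧
        (HiLo α A B x ∨ LoHi α A B x ↔ ¬ (Monotone x ∨ Antitone x)) ∧
        (HiLo α A B x ∨ LoHi α A B x ↔
          ∃ n, (x n - eqp α A B) * (x (n + 1) - eqp α A B) < 0) := by
  refine ⟨cur α A B, cur_continuousOn h, cur_strictMono h, fun a ha => cur_pos h ha, cur_eqp h,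
    fun a ha => cur_eq h ha, fun f h1 h2 h3 a ha => unique_fun h h1 h2 h3 ha,
    fun a ha hae => ?_, fun a hae => ?_, fun x hx => ?_⟩
  · obtain ⟨h1, h2, h3⟩ := cur_left h ha hae
    exact ⟨max_lt h1 h2, h3⟩
  · obtain ⟨h1, h2, h3⟩ := cur_right h hae
    exact ⟨h1, lt_min h3 h2⟩
  · have key : HiLo α A B x ∨ LoHi α A B x ↔ ¬ Tendsto x atTop (𝓝 (eqp α A B)) := by
      constructor
      · rintro (h1 | h1)
        · exact not_tendsto_of_hiLo h h1
        · exact not_tendsto_of_loHi h h1
      · intro h1
        rcases trichotomy h hx with ht | ht | ht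
        · exact (h1 ht).elim
        · exact Or.inr ht
        · exact Or.inl ht
    refine ⟨tendsto_iff_cur h hx, loHi_iff_cur h hx, hiLo_iff_cur h hx, ?_, ?_⟩
    · rw [key, tendsto_iff_monotone h hx]
    · rw [key, tendsto_iff_sides h hx]
      push Not
      rfl

end Pool.Agent.Results.MP_a0c75d_an.BasinCurve
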